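import Pool.Agent.Lib.MP_1a91b9_ntW.D.DenW
import Pool.Agent.Lib.MP_1a91b9_ntW.R.Defs8

/-!
# MP_1a91b9_nt (twists over `Q(√-2)`), part D: the densities for `GW`

`det_MM`, `det_BB`: the rows of the primes with `a q ≠ 0` are rows of the identity matrix.
`GW_lower`, `GW_upper`: the densities of `GW k j S ≠ 0` in all classes.
-/

set_option autoImplicit false
set_option linter.unusedSectionVars false

namespace Pool.Agent.Lib.MP_1a91b9_ntW

open Finset Pool.Agent.Lib.MP_1a91b9_ntH Pool.Agent.Lib.MP_1a91b9_ntQ
open Pool.Agent.Lib.MP_1a91b9_ntQ.Da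
open Pool.Agent.Lib.MP_1a91b9_ntV
open Pool.Agent.Lib.MP_1a91b9_ntE (MM BB)

noncomputable section

section Det

variable {ι : Type} [DecidableEq ι] (a : ι → ZMod 2)

/-- The matrix `MM` with rows of the identity matrix. -/
theorem det_MM (s : ι → ι → ZMod 2) (x : ι → ZMod 2) (S : Finset ι) :
    (MM (fun q p => if a q = 0 then s q p else 0) (fun q => if a q = 0 then x q else 1) S).det =
      (NX s (fun q => x q + ∑ p ∈ S.filter (fun q => ¬ a q = 0), s q p)
        (S.filter fun q => a q = 0)).det := by
  classical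
  set M := MM (fun q p => if a q = 0 then s q p else 0) (fun q => if a q = 0 then x q else 1) S
    with hM
  rw [Matrix.twoBlockTriangular_det M (fun i : S => a i = 0)]
  · have h1 : Matrix.toSquareBlockProp M (fun i : S => ¬ a i = 0) = 1 := by
      ext i j
      rw [Matrix.toSquareBlockProp_def]
      have hi := i.2
      by_cases hij : i = j
      · subst hij
        rw [Matrix.one_apply_eq]
        change M i.1 i.1 = 1
        rw [hM, MM, if_pos rfl]
        simp only [if_neg hi, sum_const_zero, add_zero]
      · rw [Matrix.one_apply_ne hij]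
        have hij' : i.1 ≠ j.1 := fun h => hij (Subtype.ext h)
        change M i.1 j.1 = 0
        rw [hM, MM, if_neg hij', if_neg hi]
    rw [h1, Matrix.det_one, mul_one]
    let e : (S.filter fun q => a q = 0) ≃ {i : S // a i = 0} :=
      ⟨fun q => ⟨⟨q.1, (mem_filter.1 q.2).1⟩, (mem_filter.1 q.2).2⟩,
        fun i => ⟨i.1.1, mem_filter.2 ⟨i.1.2, i.2⟩⟩, fun _ => rfl, fun _ => rfl⟩
    rw [← Matrix.det_submatrix_equiv_self e]
    congr 1
    ext i j
    change M (e i).1 (e j).1 = _
    have hi : a i = 0 := (mem_filter.1 i.2).2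
    rw [hM, MM, NX]
    by_cases hij : i = j
    · subst hij
      rw [if_pos rfl, if_pos rfl]
      change (if a i = 0 then x i else 1) + ∑ k ∈ S.erase i, (if a i = 0 then s i k else 0) = _
      simp only [if_pos hi]
      have h2 : ∑ k ∈ S.erase i, s i k = ∑ k ∈ (S.erase i).filter (fun q => a q = 0), s i k +
          ∑ k ∈ (S.erase i).filter (fun q => ¬ a q = 0), s i k :=
        (sum_filter_add_sum_filter_not _ _ _).symm
      have h3 : (S.erase i).filter (fun q => a q = 0) = (S.filter fun q => a q = 0).erase i := by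
        ext q
        simp only [mem_filter, mem_erase]
        tauto
      have h4 : (S.erase i).filter (fun q => ¬ a q = 0) = S.filter fun q => ¬ a q = 0 := by
        ext q
        simp only [mem_filter, mem_erase]
        constructor
        · rintro ⟨⟨_, h⟩, h'⟩
          exact ⟨h, h'⟩
        · rintro ⟨h, h'⟩
          refine ⟨⟨?_, h⟩, h'⟩
          rintro rfl
          exact h' hi
      rw [h2, h3, h4]
      ring
    · have hij' : (e i).1 ≠ (e j).1 := fun h => hij (e.injective (Subtype.ext h))
      rw [if_neg hij', if_neg hij]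
      change (if a i = 0 then s i j else 0) = _
      rw [if_pos hi]
  · intro i hi j hj
    have hij : i ≠ j := by
      rintro rfl
      exact hi hj
    rw [hM, MM, if_neg hij, if_neg hi]

/-- The matrix `BB` with rows of the identity matrix. -/
theorem det_BB (s : ι → ι → ZMod 2) (x l : ι → ZMod 2) (z : ZMod 2) (S : Finset ι) :
    (BB (fun q p => if a q = 0 then s q p else 0) (fun q => if a q = 0 then x q else 1)
      (fun q => if a q = 0 then l q else 0) (fun q => if a q = 0 then l q else 0) z S).det =
      (NXB s (fun q => x q + ∑ p ∈ S.filter (fun q => ¬ a q = 0), s q p)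
        (fun q (_ : Unit) => l q) (fun _ _ => z) (S.filter fun q => a q = 0)).det := by
  classical
  set M := BB (fun q p => if a q = 0 then s q p else 0) (fun q => if a q = 0 then x q else 1)
      (fun q => if a q = 0 then l q else 0) (fun q => if a q = 0 then l q else 0) z S
    with hM
  have hMs : ∀ i j : S, M (some i) (some j) = MM (fun q p => if a q = 0 then s q p else 0)
      (fun q => if a q = 0 then x q else 1) S i j := fun _ _ => rfl
  set p : Option S → Prop := fun o => ∀ i : S, o = some i → a i = 0 with hp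
  have hps : ∀ i : S, p (some i) ↔ a i = 0 := by
    intro i
    constructor
    · intro h
      exact h i rfl
    · intro h j hj
      rw [← Option.some.inj hj]
      exact h
  have hpn : p none := fun i h => by
    cases h
  rw [Matrix.twoBlockTriangular_det M p]
  · have h1 : Matrix.toSquareBlockProp M (fun i => ¬ p i) = 1 := by
      ext i j
      rw [Matrix.toSquareBlockProp_def]
      obtain ⟨i, hi⟩ := i
      obtain ⟨j, hj⟩ := j
      rcases i with _ | i
      · exact absurd hpn hi
      rcases j with _ | j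
      · exact absurd hpn hj
      have hi' : ¬ a i = 0 := fun h => hi ((hps i).2 h)
      change M (some i) (some j) = _
      rw [hMs]
      by_cases hij : i = j
      · subst hij
        rw [Matrix.one_apply_eq, MM, if_pos rfl]
        simp only [if_neg hi', sum_const_zero, add_zero]
      · rw [Matrix.one_apply_ne fun h => hij (Option.some.inj (congrArg Subtype.val h)), MM,
          if_neg hij, if_neg hi']
    rw [h1, Matrix.det_one, mul_one]
    let e : (S.filter fun q => a q = 0) ⊕ Unit ≃ {i : Option S // p i} :=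
      ⟨Sum.elim (fun q => ⟨some ⟨q.1, (mem_filter.1 q.2).1⟩, (hps _).2 (mem_filter.1 q.2).2⟩)
          fun _ => ⟨none, hpn⟩,
        fun o => match o with
          | ⟨none, _⟩ => Sum.inr ()
          | ⟨some i, h⟩ => Sum.inl ⟨i.1, mem_filter.2 ⟨i.2, (hps i).1 h⟩⟩,
        fun o => by
          rcases o with q | u
          · rfl
          · rfl,
        fun o => by
          obtain ⟨o, h⟩ := o
          rcases o with _ | i
          · rfl
          · rfl⟩
    rw [← Matrix.det_submatrix_equiv_self e]
    congr 1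
    ext i j
    rcases i with i | u
    · have hi : a i = 0 := (mem_filter.1 i.2).2
      rcases j with j | v
      · change M (some ⟨i.1, (mem_filter.1 i.2).1⟩) (some ⟨j.1, (mem_filter.1 j.2).1⟩) =
          if i = j then (x i + ∑ p ∈ S.filter (fun q => ¬ a q = 0), s i p) +
            ∑ l ∈ (S.filter fun q => a q = 0).erase i, s i l else s i j
        rw [hMs, MM]
        by_cases hij : i = j
        · subst hij
          rw [if_pos rfl, if_pos rfl]
          change (if a i = 0 then x i else 1) + ∑ k ∈ S.erase i, (if a i = 0 then s i k else 0) = _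
          simp only [if_pos hi]
          have h2 : ∑ k ∈ S.erase i, s i k = ∑ k ∈ (S.erase i).filter (fun q => a q = 0), s i k +
              ∑ k ∈ (S.erase i).filter (fun q => ¬ a q = 0), s i k :=
            (sum_filter_add_sum_filter_not _ _ _).symm
          have h3 : (S.erase i).filter (fun q => a q = 0) =
              (S.filter fun q => a q = 0).erase i := by
            ext q
            simp only [mem_filter, mem_erase]
            tauto
          have h4 : (S.erase i).filter (fun q => ¬ a q = 0) = S.filter fun q => ¬ a q = 0 := by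
            ext q
            simp only [mem_filter, mem_erase]
            constructor
            · rintro ⟨⟨_, h⟩, h'⟩
              exact ⟨h, h'⟩
            · rintro ⟨h, h'⟩
              refine ⟨⟨?_, h⟩, h'⟩
              rintro rfl
              exact h' hi
          rw [h2, h3, h4]
          ring
        · have hij' : (⟨i.1, (mem_filter.1 i.2).1⟩ : S) ≠ ⟨j.1, (mem_filter.1 j.2).1⟩ :=
            fun h => hij (Subtype.ext (Subtype.mk.inj h))
          rw [if_neg hij', if_neg hij]
          change (if a i = 0 then s i j else 0) = _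
          rw [if_pos hi]
      · change (if a i = 0 then l i else 0) = l i
        rw [if_pos hi]
    · rcases j with j | v
      · have hj : a j = 0 := (mem_filter.1 j.2).2
        change (if a j = 0 then l j else 0) = l j
        rw [if_pos hj]
      · rfl
  · intro i hi j hj
    rcases i with _ | i
    · exact absurd hpn hi
    have hi' : ¬ a i = 0 := fun h => hi ((hps i).2 h)
    rcases j with _ | j
    · change (if a i = 0 then l i else 0) = 0
      rw [if_neg hi']
    · have hij : i ≠ j := by
        rintro rfl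
        exact hi hj
      rw [hMs, MM, if_neg hij, if_neg hi']

end Det

section GW

variable {κ : Type} [Fintype κ] [DecidableEq κ] {D : Dat2 Pg κ} {w l : κ → ZMod 2}

/-- The identification of the data. -/
structure Id8 (D : Dat2 Pg κ) (w l : κ → ZMod 2) : Prop where
  es : ∀ q p, D.s q p = sy q p
  ew : ∀ q, D.dg w q = aa q.1
  el : ∀ q, D.dg l q = ll q.1
  l0 : l ≠ 0
  lw : l ≠ w

theorem mo_eq (h : Id8 D w l) (S : Finset Pg) : mo D w S = S.filter fun q => aa q.1 = 0 := by
  ext q
  rw [mem_mo, mem_filter, h.ew]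

theorem on_eq (h : Id8 D w l) (S : Finset Pg) : on D w S = S.filter fun q => ¬ aa q.1 = 0 := by
  ext q
  rw [mem_on, mem_filter, h.ew]

/-- The diagonal. -/
def rj (j : ZMod 2) (q : Pg) : ZMod 2 := rr q.1 + j * ll q.1

theorem GW_U (h : Id8 D w l) {k j : ZMod 2} {S : Finset Pg} (hj : j = 0 ∨ AS S = 1) :
    GW k j S = (NX D.s (xD D w (rj j) S) (mo D w S)).det := by
  rw [GW, if_pos hj]
  have h1 : (MM sW (xW j) S).det = _ := det_MM (fun q : Pg => aa q.1) sy (rj j) S
  have h2 : D.s = sy := funext fun q => funext fun p => h.es q p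
  have h3 : xD D w (rj j) S = fun q => rj j q + ∑ p ∈ S.filter (fun q => ¬ aa q.1 = 0), sy q p := by
    funext q
    rw [xD, on_eq h, h2]
  rw [h1, h2, h3, mo_eq h]

theorem GW_B (h : Id8 D w l) {k j : ZMod 2} {S : Finset Pg} (hj : ¬ (j = 0 ∨ AS S = 1)) :
    GW k j S = (NXB D.s (xD D w (rj 1) S) (fun q (_ : Unit) => D.dg l q)
      (fun _ _ => k + ∑ q ∈ S, D.dg l q) (mo D w S)).det := by
  rw [GW, if_neg hj]
  have h1 : (BB sW (xW 1) lW lW (k + lS S) S).det = _ :=
    det_BB (fun q : Pg => aa q.1) sy (rj 1) (fun q : Pg => ll q.1) (k + lS S) S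
  have h2 : D.s = sy := funext fun q => funext fun p => h.es q p
  have h3 : xD D w (rj 1) S = fun q => rj 1 q + ∑ p ∈ S.filter (fun q => ¬ aa q.1 = 0), sy q p := by
    funext q
    rw [xD, on_eq h, h2]
  have h4 : (fun q (_ : Unit) => D.dg l q) = fun q (_ : Unit) => ll q.1 := by
    funext q _
    exact h.el q
  have h5 : ∑ q ∈ S, D.dg l q = lS S := sum_congr rfl fun q _ => h.el q
  rw [h1, h2, h3, h4, h5, mo_eq h]

variable {G : Type} [AddCommGroup G] [Fintype G]

theorem AS_cls (h : Id8 D w l) (C : Cl2 D G) {g : G} {X : ℕ} {S : Finset Pg}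
    (hS : S ∈ SG C g X) : AS S = ∑ j, w j * C.A j g := by
  rw [← corner_cls C w hS]
  exact sum_congr rfl fun q _ => (h.ew q).symm

/-- **The lower bound.** -/
theorem GW_lower (h : Id8 D w l) (hD : OKw D w) (C : Cl2 D G) (h3 : C.H3) (k j : ZMod 2) (g : G)
    {κ₀ : ℝ} (hκ : κ₀ < cinf2) (ε : ℝ) (hε : 0 < ε) : ∃ X₀ : ℕ, ∀ X : ℕ, X₀ ≤ X →
      κ₀ * ((SG C g X).card : ℝ) - ε * X ≤ ((SG C g X).filter fun S => GW k j S ≠ 0).card := by
  by_cases hj : j = 0 ∨ ∑ j, w j * C.A j g = 1
  · obtain ⟨X0, h0⟩ := densU_lower hD C h3 (rj j) g hκ ε hε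
    refine ⟨X0, fun X hX => (h0 X hX).trans (le_of_eq ?_)⟩
    congr 2
    refine filter_congr fun S hS => ?_
    rw [GW_U h]
    rwa [AS_cls h C hS]
  · obtain ⟨X0, h0⟩ := densB_lower hD C h3 (rj 1) h.l0 h.lw k g hκ ε hε
    refine ⟨X0, fun X hX => (h0 X hX).trans (le_of_eq ?_)⟩
    congr 2
    refine filter_congr fun S hS => ?_
    rw [GW_B h]
    rwa [AS_cls h C hS]

/-- **The upper bound.** -/
theorem GW_upper (h : Id8 D w l) (hD : OKw D w) (C : Cl2 D G) (h3 : C.H3) (k j : ZMod 2) (g : G)
    {κ₀ : ℝ} (hκ : cinf2 < κ₀) (ε : ℝ) (hε : 0 < ε) : ∃ X₀ : ℕ, ∀ X : ℕ, X₀ ≤ X →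
      (((SG C g X).filter fun S => GW k j S ≠ 0).card : ℝ) ≤
        κ₀ * ((SG C g X).card : ℝ) + ε * X := by
  by_cases hj : j = 0 ∨ ∑ j, w j * C.A j g = 1
  · obtain ⟨X0, h0⟩ := densU_upper hD C h3 (rj j) g hκ ε hε
    refine ⟨X0, fun X hX => (le_of_eq ?_).trans (h0 X hX)⟩
    congr 2
    refine filter_congr fun S hS => ?_
    rw [GW_U h]
    rwa [AS_cls h C hS]
  · obtain ⟨X0, h0⟩ := densB_upper hD C h3 (rj 1) h.l0 h.lw k g hκ ε hε
    refine ⟨X0, fun X hX => (le_of_eq ?_).trans (h0 X hX)⟩
    congr 2
    refine filter_congr fun S hS => ?_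
    rw [GW_B h]
    rwa [AS_cls h C hS]

end GW

end

end Pool.Agent.Lib.MP_1a91b9_ntW
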