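import Pool.Agent.Lib.MP_1a91b9_ntV.D.SysN

/-!
# MP_1a91b9_nt (twists over `Q(√-2)`), part D: the label system

The primes `q` with `dg w q = 0` (`N q = 1` mod `8`) carry the labels `(x, y)` with weight
`2 ^ (-k)`; the other primes only have the label `0`, with weight `1`. The maximal unlinked sets
which contribute are the maximal totally singular subspaces.
-/

set_option autoImplicit false
set_option linter.unusedSectionVars false

namespace Pool.Agent.Lib.MP_1a91b9_ntW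

open Finset Pool.Agent.Lib.MP_1a91b9_ntH Pool.Agent.Lib.MP_1a91b9_ntQ
open Pool.Agent.Lib.MP_1a91b9_ntQ.Da
open Pool.Agent.Lib.MP_1a91b9_ntV

noncomputable section

variable {ι : Type} [DecidableEq ι] {κ : Type} [Fintype κ] [DecidableEq κ] {k : ℕ}

/-- The hypotheses on the symbols: as `OKt`, and the class character `w` is not trivial and takes
the value `1` often enough (`L(1, χ) > 0`). -/
structure OKw (D : Dat2 ι κ) [PS ι] (w : κ → ZMod 2) : Prop extends OKt D w where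
  w0 : w ≠ 0
  cbn : ∃ C, SumB (fun q => -D.ch ∅ w q) C

omit [DecidableEq ι] [DecidableEq κ] in
theorem ch_empty (D : Dat2 ι κ) [DecidableEq ι] (c : κ → ZMod 2) (q : ι) :
    D.ch ∅ c q = sg (D.dg c q) := by
  unfold Dat2.ch
  rw [if_neg (notMem_empty _), ex1_empty]

private theorem w_norm_add (a b : ZMod 2) : ‖e2 a + e2 b‖ ≤ 3 / 2 + sg (a + b) / 2 := by
  have h2 : (1 : ZMod 2) + 1 = 0 := by decide
  have h3 : ‖(1 : ℂ) + 1‖ = 2 := by norm_num
  have h4 : ‖(-1 : ℂ) + -1‖ = 2 := by norm_num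
  rcases z2 a with rfl | rfl <;> rcases z2 b with rfl | rfl <;>
    simp only [add_zero, zero_add, h2, sg2_zero, Pool.Agent.Lib.MP_1a91b9_ntQ.sg2_one, e2_zero,
      e2_one, add_neg_cancel,
      neg_add_cancel, norm_zero, h3, h4] <;> norm_num

private theorem w_norm_sum {L : Type} [DecidableEq L] (U : Finset L) (x : L → ZMod 2) (l l' : L)
    (hl : l ∈ U) (hl' : l' ∈ U) (hne : l ≠ l') :
    ‖∑ k ∈ U, e2 (x k)‖ ≤ ((2 * U.card - 1 : ℝ) + sg (x l + x l')) / 2 := by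
  have h1 : l' ∈ U.erase l := mem_erase.2 ⟨hne.symm, hl'⟩
  have e1 : ∑ k ∈ U, e2 (x k) = (e2 (x l) + e2 (x l')) + ∑ k ∈ (U.erase l).erase l', e2 (x k) := by
    rw [← add_sum_erase U _ hl, ← add_sum_erase (U.erase l) _ h1]
    ring
  have c1 : (((U.erase l).erase l').card : ℝ) = (U.card : ℝ) - 2 := by
    have a1 := card_erase_add_one hl
    have a2 := card_erase_add_one h1
    have a3 : ((U.erase l).erase l').card + 2 = U.card := by omega
    rw [← a3]
    push_cast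
    ring
  rw [e1]
  have h2 : ‖∑ k ∈ (U.erase l).erase l', e2 (x k)‖ ≤ (U.card : ℝ) - 2 := by
    refine (norm_sum_le _ _).trans ?_
    rw [← c1]
    simp only [norm_e2, sum_const, nsmul_eq_mul, mul_one]
    exact le_refl _
  have h3 := w_norm_add (x l) (x l')
  have h4 := norm_add_le (e2 (x l) + e2 (x l')) (∑ k ∈ (U.erase l).erase l', e2 (x k))
  linarith

open Classical in
/-- The weights, with a factor `h` of modulus `1`. -/
def gW (D : Dat2 ι κ) (w : κ → ZMod 2) (h : ι → ℂ) (r : ι → ZMod 2) (cc : Lab2 k → κ → ZMod 2)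
    (l : Lab2 k) (q : ι) : ℂ :=
  h q * if D.dg w q = 0 then ((2 : ℂ) ^ k)⁻¹ * e2 (r q * Q2 l + D.dg (cc l) q)
  else if l = 0 then e2 (D.dg (cc 0) q) else 0

/-- The label system. -/
def LW (D : Dat2 ι κ) (w : κ → ZMod 2) (h : ι → ℂ) (r : ι → ZMod 2) (cc : Lab2 k → κ → ZMod 2) :
    LG (Lab2 k) ι where
  Phi := Phi1 PhiQ
  g := gW D w h r cc

variable (D : Dat2 ι κ) (w : κ → ZMod 2) (h : ι → ℂ) (r : ι → ZMod 2) (cc : Lab2 k → κ → ZMod 2)

theorem LW_lk (l m : Lab2 k) : (LW D w h r cc).lk l m = Q2 (l - m) := by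
  show Phi1 PhiQ l m + Phi1 PhiQ m l = _
  rw [Phi1_lk, PhiQ_add]

theorem LW_Unl (U : Finset (Lab2 k)) : (LW D w h r cc).Unl U ↔ Unl2 U := by
  rw [LG.Unl, Unl2]
  simp only [LW_lk]

theorem gW_zero {q : ι} (hq : D.dg w q = 0) (l : Lab2 k) :
    (LW D w h r cc).g l q = h q * (((2 : ℂ) ^ k)⁻¹ * e2 (r q * Q2 l + D.dg (cc l) q)) := by
  show gW D w h r cc l q = _
  unfold gW
  rw [if_pos hq]

theorem gW_one {q : ι} (hq : D.dg w q ≠ 0) :
    (LW D w h r cc).g 0 q = h q * e2 (D.dg (cc 0) q) := by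
  show gW D w h r cc 0 q = _
  unfold gW
  rw [if_neg hq, if_pos rfl]

theorem gW_ne {q : ι} (hq : D.dg w q ≠ 0) {l : Lab2 k} (hl : l ≠ 0) :
    (LW D w h r cc).g l q = 0 := by
  show gW D w h r cc l q = _
  unfold gW
  rw [if_neg hq, if_neg hl, mul_zero]

variable (hn : ∀ q, ‖h q‖ = 1)

include hn

theorem norm_gW_zero {q : ι} (hq : D.dg w q = 0) (l : Lab2 k) :
    ‖(LW D w h r cc).g l q‖ = ((2 : ℝ) ^ k)⁻¹ := by
  rw [gW_zero D w h r cc hq, norm_mul, hn, one_mul, norm_mul, norm_e2, mul_one, norm_inv,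
    norm_pow, Complex.norm_ofNat]

theorem norm_gW_one {q : ι} (hq : D.dg w q ≠ 0) : ‖(LW D w h r cc).g 0 q‖ = 1 := by
  rw [gW_one D w h r cc hq, norm_mul, hn, norm_e2, one_mul]

theorem norm_gW_le (l : Lab2 k) (q : ι) : ‖(LW D w h r cc).g l q‖ ≤ 1 := by
  by_cases hq : D.dg w q = 0
  · rw [norm_gW_zero D w h r cc hn hq]
    exact inv_le_one_of_one_le₀ (one_le_pow₀ (by norm_num))
  · by_cases hl : l = 0
    · rw [hl, norm_gW_one D w h r cc hn hq]
    · rw [gW_ne D w h r cc hq hl, norm_zero]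
      exact zero_le_one

open Classical in
/-- The sum of the norms over a set of labels. -/
theorem sum_norm_gW (Z : Finset (Lab2 k)) (q : ι) : ∑ l ∈ Z, ‖(LW D w h r cc).g l q‖ =
    if D.dg w q = 0 then Z.card * ((2 : ℝ) ^ k)⁻¹ else if (0 : Lab2 k) ∈ Z then 1 else 0 := by
  by_cases hq : D.dg w q = 0
  · rw [if_pos hq]
    simp only [norm_gW_zero D w h r cc hn hq, sum_const, nsmul_eq_mul]
  · rw [if_neg hq]
    have h1 : ∀ l ∈ Z, ‖(LW D w h r cc).g l q‖ = if l = 0 then 1 else 0 := by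
      intro l _
      by_cases hl : l = 0
      · rw [if_pos hl, hl, norm_gW_one D w h r cc hn hq]
      · rw [if_neg hl, gW_ne D w h r cc hq hl, norm_zero]
    rw [sum_congr rfl h1, sum_ite_eq']

omit hn

open Classical in
/-- The mean value. -/
def mW (w : κ → ZMod 2) (tr : (κ → ZMod 2) → Prop) (cc : Lab2 k → κ → ZMod 2)
    (U : Finset (Lab2 k)) : ℂ :=
  if tr (cc 0) ∧ ∀ l ∈ U, cc l + cc 0 = 0 ∨ cc l + cc 0 = w then 1 else 0

/-- The bound for the factor at a prime with many labels. -/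
theorem fac_bound {U : Finset (Lab2 k)} (hU : U.card = 2 ^ k) (x : Lab2 k → ZMod 2)
    {l l' : Lab2 k} (hl : l ∈ U) (hl' : l' ∈ U) (hne : l ≠ l') {s : ℝ} (hs : sg (x l + x l') = s)
    {z : ℂ} (hz : ‖z‖ = 1) :
    ‖z * (((2 : ℂ) ^ k)⁻¹ * ∑ l ∈ U, e2 (x l))‖ ≤
      ((((4 * 2 ^ k : ℕ) : ℝ) - 1) + (-1 + s + s)) / ((4 * 2 ^ k : ℕ) : ℝ) := by
  have hns := w_norm_sum U x l l' hl hl' hne
  rw [hs, hU] at hns
  rw [norm_mul, hz, one_mul, norm_mul, norm_inv, norm_pow, Complex.norm_ofNat]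
  refine (mul_le_mul_of_nonneg_left hns (by positivity)).trans (le_of_eq ?_)
  push_cast
  have : (2 : ℝ) ^ k ≠ 0 := by positivity
  field_simp
  ring

variable {D w}

private theorem z2_one_of {x : ZMod 2} (h : x ≠ 0) : x = 1 := by
  have h1 : ∀ x : ZMod 2, x ≠ 0 → x = 1 := by decide
  exact h1 x h

private theorem z2_eq {x y : ZMod 2} (h : x + y = 0) : x = y := by
  have h1 : ∀ x y : ZMod 2, x + y = 0 → x = y := by decide
  exact h1 x y h

private theorem chw (D : Dat2 ι κ) (w : κ → ZMod 2) (T : Finset ι) (c : κ → ZMod 2) (q : ι) :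
    D.ch T (c + w) q = D.ch T c q * sg (D.dg w q) := by
  unfold Dat2.ch
  by_cases hq : q ∈ T
  · rw [if_pos hq, if_pos hq, zero_mul]
  · rw [if_neg hq, if_neg hq, ← sg2_add]
    congr 1
    unfold Dat2.ex1 Dat2.dg
    simp only [Pi.add_apply, add_mul, sum_add_distrib]
    ring

private theorem ch_abs (D : Dat2 ι κ) (T : Finset ι) (c : κ → ZMod 2) (q : ι) :
    |D.ch T c q| ≤ 1 := by
  unfold Dat2.ch
  split_ifs
  · simp
  · exact (sg2_abs _).le

/-- The function `ψ` of the bound. -/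
def psiW (D : Dat2 ι κ) (w : κ → ZMod 2) (T : Finset ι) (c : κ → ZMod 2) (q : ι) : ℝ :=
  -D.ch ∅ w q + D.ch T c q + D.ch T (c + w) q

theorem psiW_zero {q : ι} (h : D.dg w q = 0) (T : Finset ι) (c : κ → ZMod 2) :
    psiW D w T c q = -1 + D.ch T c q + D.ch T c q := by
  unfold psiW
  rw [ch_empty, chw, h, sg2_zero, mul_one]

theorem psiW_one {q : ι} (h : D.dg w q ≠ 0) (T : Finset ι) (c : κ → ZMod 2) :
    psiW D w T c q = 1 := by
  unfold psiW
  rw [ch_empty, chw, z2_one_of h, Pool.Agent.Lib.MP_1a91b9_ntQ.sg2_one]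
  ring

theorem psiW_ge (q : ι) (T : Finset ι) (c : κ → ZMod 2) : -3 ≤ psiW D w T c q := by
  have h1 := (abs_le.1 (ch_abs D ∅ w q)).2
  have h2 := (abs_le.1 (ch_abs D T c q)).1
  have h3 := (abs_le.1 (ch_abs D T (c + w) q)).1
  unfold psiW
  linarith

variable [PS ι]

theorem psiW_sumB (hD : OKw D w) : ∃ C : ℝ, 1 ≤ C ∧ ∀ (T : Finset ι) (c : κ → ZMod 2),
    (T ≠ ∅ ∨ (c ≠ 0 ∧ c ≠ w)) →
      SumB (psiW D w T c) ((C * (1 + Real.log (nm T))) ^ 3) := by
  obtain ⟨C, hC⟩ := hD.cb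
  obtain ⟨Cn, hCn⟩ := hD.cbn
  have hCn1 : 1 ≤ Cn := hCn.hB
  refine ⟨max (max C Cn) 1, le_max_right _ _, fun T c h => ?_⟩
  have h1 : T ≠ ∅ ∨ c ≠ 0 := by
    rcases h with h | h
    · exact Or.inl h
    · exact Or.inr h.1
  have h2 : T ≠ ∅ ∨ c + w ≠ 0 := by
    rcases h with h | h
    · exact Or.inl h
    · refine Or.inr fun h3 => h.2 ?_
      funext j
      exact z2_eq (congrFun h3 j)
  have s1 := SumB.of (hC T c h1)
  have s2 := SumB.of (hC T (c + w) h2)
  have hTn : (1 : ℝ) ≤ nm T := by exact_mod_cast one_le_nm T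
  have hlT : 0 ≤ Real.log (nm T) := Real.log_nonneg hTn
  have hb1 := s1.hB
  refine ((hCn.add s1).add s2).mono ?_
  set A := max (max C Cn) 1 with hA
  have hCA : C ≤ A := (le_max_left _ _).trans (le_max_left _ _)
  have hCnA : Cn ≤ A := (le_max_right _ _).trans (le_max_left _ _)
  have hA1 : 1 ≤ A := le_max_right _ _
  have h3 : C * (1 + Real.log (nm T)) ≤ A * (1 + Real.log (nm T)) :=
    mul_le_mul_of_nonneg_right hCA (by linarith)
  have h4 : Cn ≤ A * (1 + Real.log (nm T)) := by nlinarith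
  calc Cn * (C * (1 + Real.log (nm T))) * (C * (1 + Real.log (nm T)))
      ≤ (A * (1 + Real.log (nm T))) * (A * (1 + Real.log (nm T))) *
          (A * (1 + Real.log (nm T))) := by
        refine mul_le_mul (mul_le_mul h4 h3 (by linarith) (by positivity)) h3 (by linarith)
          (by positivity)
    _ = _ := by ring

theorem LW_mid (hD : OKw D w) {h : ι → ℂ} (hn : ∀ q, ‖h q‖ = 1) (r : ι → ZMod 2) (cc : Lab2 k → κ → ZMod 2) :
    ∃ C : ℝ, ∀ U ∈ Lgs2 k, ∀ b : Lab2 k → Finset ι, PD b → (∀ l ∈ U, b l = ∅) → uni b ≠ ∅ →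
    (∀ l, ∀ q ∈ b l, (LW D w h r cc).g l q ≠ 0) →
    ∃ ψ : ι → ℝ, SumB ψ ((C * (1 + Real.log (nm (uni b)))) ^ (4 * 2 ^ k)) ∧
      (∀ q, 0 ≤ (((4 * 2 ^ k : ℕ) : ℝ) - 1) + ψ q) ∧ ∀ q, q ∉ uni b →
        ‖HG D (LW D w h r cc) U b q‖ ≤ 1 ∧
          ‖HG D (LW D w h r cc) U b q‖ ≤ ((((4 * 2 ^ k : ℕ) : ℝ) - 1) + ψ q) / ((4 * 2 ^ k : ℕ) : ℝ) := by
  classical
  obtain ⟨C, hC1, hC⟩ := psiW_sumB hD
  have h1k : (1 : ℝ) ≤ 2 ^ k := one_le_pow₀ (by norm_num)
  have h1kn : 1 ≤ 2 ^ k := Nat.one_le_two_pow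
  have hMpos : (0 : ℝ) < ((4 * 2 ^ k : ℕ) : ℝ) := by
    push_cast
    linarith
  refine ⟨C, fun U hU b hb hbU hne hnz => ?_⟩
  have hW := mem_Lgs2.1 hU
  obtain ⟨p0, hp0⟩ := nonempty_iff_ne_empty.2 hne
  obtain ⟨m0, hm0⟩ := mem_uni.1 hp0
  have hm0U : m0 ∉ U := fun hm => by
    rw [hbU m0 hm] at hm0
    exact absurd hm0 (notMem_empty _)
  -- the primes of `b` have many labels
  have hb0 : ∀ m, ∀ p ∈ b m, D.dg w p = 0 := by
    intro m p hp
    by_contra h0
    have hm : m ≠ 0 := by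
      rintro rfl
      rw [hbU 0 hW.zero] at hp
      exact absurd hp (notMem_empty _)
    exact hnz m p hp (gW_ne D w h r cc h0 hm)
  obtain ⟨l, hl, l', hl', hll⟩ : ∃ l ∈ U, ∃ l' ∈ U, Q2 (l - m0) ≠ Q2 (l' - m0) := by
    by_contra hcon
    push Not at hcon
    exact hm0U (K2 hW.unl hW.card (Q2 (0 - m0)) fun l hl => hcon l hl 0 hW.zero)
  have hne' : l ≠ l' := fun e => hll (by rw [e])
  set T := TN b l l' with hT
  set c : κ → ZMod 2 := cc l + cc l' with hc
  have hTs : T ⊆ uni b := filter_subset _ _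
  have hTne : T ≠ ∅ := by
    refine nonempty_iff_ne_empty.1 ⟨p0, ?_⟩
    rw [hT, TN]
    refine mem_filter.2 ⟨hp0, ?_⟩
    have h1 : tN b l l' p0 = Q2 (l - m0) + Q2 (l' - m0) := by
      unfold tN
      rw [sum_eq_single m0, if_pos hm0]
      · intro m _ hm
        exact if_neg fun h => (disjoint_left.1 (hb m m0 hm)) h hm0
      · intro h
        exact absurd (mem_univ _) h
    rw [h1]
    intro h
    exact hll (z2_eq h)
  have hTn : (1 : ℝ) ≤ nm T := by exact_mod_cast one_le_nm T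
  have hlT : 0 ≤ Real.log (nm T) := Real.log_nonneg hTn
  have hlog : Real.log (nm T) ≤ Real.log (nm (uni b)) := by
    refine Real.log_le_log (by linarith) ?_
    exact_mod_cast Pool.Agent.Lib.MP_1a91b9_ntQ.D.nm_mono hTs
  refine ⟨psiW D w T c, (hC T c (Or.inl hTne)).mono ?_, fun q => ?_, fun q hq => ?_⟩
  · have h1 : 1 ≤ C * (1 + Real.log (nm (uni b))) := by nlinarith
    calc (C * (1 + Real.log (nm T))) ^ 3 ≤ (C * (1 + Real.log (nm (uni b)))) ^ 3 := by
          refine pow_le_pow_left₀ (by positivity) ?_ 3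
          exact mul_le_mul_of_nonneg_left (by linarith) (by linarith)
      _ ≤ _ := pow_le_pow_right₀ h1 (by omega)
  · have := psiW_ge (D := D) (w := w) q T c
    push_cast
    linarith
  · by_cases hq0 : D.dg w q = 0
    · -- many labels
      have hx : ∀ l ∈ U, (LW D w h r cc).g l q * e2 (xg D (LW D w h r cc) b l q) =
          h q * (((2 : ℂ) ^ k)⁻¹ *
            e2 (r q * Q2 l + D.dg (cc l) q + xg D (LW D w h r cc) b l q)) := by
        intro l _
        rw [gW_zero D w h r cc hq0, e2_add _ (xg D (LW D w h r cc) b l q)]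
        ring
      have hH : HG D (LW D w h r cc) U b q = h q * (((2 : ℂ) ^ k)⁻¹ *
          ∑ l ∈ U, e2 (r q * Q2 l + D.dg (cc l) q + xg D (LW D w h r cc) b l q)) := by
        unfold HG
        rw [sum_congr rfl hx, mul_sum, mul_sum]
      have hxg : ∀ l, xg D (LW D w h r cc) b l q = ∑ m, Q2 (l - m) * ∑ p ∈ b m, D.s q p := by
        intro l
        have h1 : xg D (LW D w h r cc) b l q = xg D (LN D h cc) b l q := rfl
        rw [h1, xg_eq D hD.tw h cc b l q hq, hq0, mul_zero, add_zero]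
      have hTq : q ∉ T := fun h => hq (hTs h)
      have hsg : sg ((r q * Q2 l + D.dg (cc l) q + xg D (LW D w h r cc) b l q) +
          (r q * Q2 l' + D.dg (cc l') q + xg D (LW D w h r cc) b l' q)) = D.ch T c q := by
        unfold Dat2.ch
        rw [if_neg hTq]
        congr 1
        have h1 : D.ex1 T c q = D.dg c q + ∑ p ∈ T, D.s q p := rfl
        rw [h1, hT, ← sum_TN D b l l' q, hc, dg_add, hxg, hxg, hW.unl.Q hW.zero hl,
          hW.unl.Q hW.zero hl']
        ring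
      have hb1 := fac_bound hW.card
        (fun l => r q * Q2 l + D.dg (cc l) q + xg D (LW D w h r cc) b l q) hl hl' hne' hsg (hn q)
      rw [← hH, ← psiW_zero hq0 T c] at hb1
      refine ⟨hb1.trans ?_, hb1⟩
      rw [div_le_one hMpos, psiW_zero hq0]
      have := (abs_le.1 (ch_abs D T c q)).2
      linarith
    · -- one label
      have hH : HG D (LW D w h r cc) U b q = (LW D w h r cc).g 0 q * e2 (xg D (LW D w h r cc) b 0 q) := by
        unfold HG
        refine sum_eq_single_of_mem 0 hW.zero fun l _ hl => ?_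
        rw [gW_ne D w h r cc hq0 hl, zero_mul]
      have hn : ‖HG D (LW D w h r cc) U b q‖ = 1 := by
        rw [hH, norm_mul, norm_e2, mul_one, norm_gW_one D w h r cc hn hq0]
      rw [hn, psiW_one hq0]
      refine ⟨le_refl _, ?_⟩
      rw [sub_add_cancel, div_self hMpos.ne']

private theorem w_small (δ K B ε : ℝ) (hδ : 0 < δ) (hK : 0 < K) (hB : 1 ≤ B) (hε : 0 < ε) :
    ∃ X₀ : ℕ, ∀ X : ℕ, X₀ ≤ X → K * X * Real.log X ^ (-δ) * B ^ δ ≤ ε * X := by
  have h1 : Filter.Tendsto (fun X : ℕ => Real.log (X : ℝ) ^ (-δ)) Filter.atTop (nhds 0) :=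
    (tendsto_rpow_neg_atTop hδ).comp
      (Real.tendsto_log_atTop.comp tendsto_natCast_atTop_atTop)
  have hP : 0 < K * B ^ δ := mul_pos hK (Real.rpow_pos_of_pos (by linarith) _)
  have h2 : ∀ᶠ X : ℕ in Filter.atTop, Real.log (X : ℝ) ^ (-δ) < ε / (K * B ^ δ) :=
    h1.eventually (gt_mem_nhds (div_pos hε hP))
  obtain ⟨X₀, h3⟩ := Filter.eventually_atTop.1 h2
  refine ⟨X₀, fun X hX => ?_⟩
  have h4 := h3 X hX
  rw [lt_div_iff₀ hP] at h4
  have h5 : K * X * Real.log X ^ (-δ) * B ^ δ = (Real.log (X : ℝ) ^ (-δ) * (K * B ^ δ)) * X := by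
    ring
  rw [h5]
  exact mul_le_mul_of_nonneg_right h4.le (Nat.cast_nonneg X)

theorem LW_main (hD : OKw D w) {h : ι → ℂ} {tr : (κ → ZMod 2) → Prop} (hw : D.Wt ∅ h tr)
    (r : ι → ZMod 2) (cc : Lab2 k → κ → ZMod 2) :
    ∀ U ∈ Lgs2 k, ∀ ε : ℝ, 0 < ε → ∃ X₀ : ℕ, ∀ X : ℕ, X₀ ≤ X →
      ‖∑ S ∈ Sx ι X, ∏ q ∈ S, ∑ l ∈ U, (LW D w h r cc).g l q -
        mW w tr cc U * ((Sx ι X).card : ℂ)‖ ≤ ε * X := by
  classical
  intro U hU ε hε
  have hn := hw.nrm
  have hW := mem_Lgs2.1 hU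
  have h1k : (1 : ℝ) ≤ 2 ^ k := one_le_pow₀ (by norm_num)
  have h1kn : 1 ≤ 2 ^ k := Nat.one_le_two_pow
  have h2k0 : (2 : ℝ) ^ k ≠ 0 := by positivity
  have h2c : (2 : ℂ) ^ k ≠ 0 := pow_ne_zero _ (by norm_num)
  have hMpos : (0 : ℝ) < ((4 * 2 ^ k : ℕ) : ℝ) := by
    push_cast
    linarith
  by_cases hB : ∃ l ∈ U, cc l + cc 0 ≠ 0 ∧ cc l + cc 0 ≠ w
  · obtain ⟨l, hl, hc0, hcw⟩ := hB
    set c : κ → ZMod 2 := cc l + cc 0 with hc
    have hl0 : l ≠ 0 := by
      rintro rfl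
      apply hc0
      rw [hc]
      funext j
      exact z2_add_self _
    have hmW : mW w tr cc U = 0 := by
      unfold mW
      refine if_neg fun h => ?_
      rcases h.2 l hl with h1 | h1
      · exact hc0 h1
      · exact hcw h1
    obtain ⟨C, hC1, hC⟩ := psiW_sumB hD
    obtain ⟨C1, hC1'⟩ := hD.an.cheb
    obtain ⟨C2, hC2⟩ := hD.an.zt
    have hS := hC ∅ c (Or.inr ⟨hc0, hcw⟩)
    obtain ⟨K, hK, hub⟩ := ub2 hC1' hC2 (4 * 2 ^ k) (by omega)
    obtain ⟨X₀, hX₀⟩ := w_small (1 / ((4 * 2 ^ k : ℕ) : ℝ)) K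
      ((C * (1 + Real.log (nm (∅ : Finset ι)))) ^ 3) ε (by positivity) hK hS.hB hε
    refine ⟨max X₀ 2, fun X hX => ?_⟩
    rw [hmW, zero_mul, sub_zero]
    have hH : ∀ q, ‖∑ l ∈ U, (LW D w h r cc).g l q‖ ≤ 1 ∧ ‖∑ l ∈ U, (LW D w h r cc).g l q‖ ≤
        ((((4 * 2 ^ k : ℕ) : ℝ) - 1) + psiW D w ∅ c q) / ((4 * 2 ^ k : ℕ) : ℝ) := by
      intro q
      by_cases hq0 : D.dg w q = 0
      · have h1 : ∑ l ∈ U, (LW D w h r cc).g l q =
            h q * (((2 : ℂ) ^ k)⁻¹ * ∑ l ∈ U, e2 (r q * Q2 l + D.dg (cc l) q)) := by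
          rw [mul_sum, mul_sum]
          exact sum_congr rfl fun l _ => gW_zero D w h r cc hq0 l
        have hsg : sg ((r q * Q2 l + D.dg (cc l) q) + (r q * Q2 (0 : Lab2 k) + D.dg (cc 0) q)) =
            D.ch ∅ c q := by
          rw [ch_empty, hc, dg_add, hW.unl.Q hW.zero hl, Q2_zero]
          ring_nf
        have hb1 := fac_bound hW.card (fun l => r q * Q2 l + D.dg (cc l) q) hl hW.zero hl0 hsg
          (hn q)
        rw [← h1, ← psiW_zero hq0 ∅ c] at hb1
        refine ⟨hb1.trans ?_, hb1⟩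
        rw [div_le_one hMpos, psiW_zero hq0]
        have := (abs_le.1 (ch_abs D ∅ c q)).2
        linarith
      · have h1 : ∑ l ∈ U, (LW D w h r cc).g l q = (LW D w h r cc).g 0 q :=
          sum_eq_single_of_mem 0 hW.zero fun l _ hl => gW_ne D w h r cc hq0 hl
        rw [h1, norm_gW_one D w h r cc hn hq0, psiW_one hq0]
        refine ⟨le_refl _, ?_⟩
        rw [sub_add_cancel, div_self hMpos.ne']
    have h1 : ‖∑ S ∈ Sx ι X, ∏ q ∈ S, ∑ l ∈ U, (LW D w h r cc).g l q‖ ≤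
        ∑ S ∈ Sx ι X, ∏ q ∈ S, ‖∑ l ∈ U, (LW D w h r cc).g l q‖ := by
      refine (norm_sum_le _ _).trans (sum_le_sum fun S _ => ?_)
      rw [norm_prod]
    have h2 := hub (psiW D w ∅ c) _ hS (fun q => ‖∑ l ∈ U, (LW D w h r cc).g l q‖)
      (fun q => ⟨norm_nonneg _, (hH q).1, (hH q).2⟩) X ((le_max_right _ _).trans hX)
    have h3 := hX₀ X ((le_max_left _ _).trans hX)
    exact h1.trans (h2.trans h3)
  · push Not at hB
    have hg : ∀ q, ∑ l ∈ U, (LW D w h r cc).g l q = h q * e2 (D.ex1 ∅ (cc 0) q) := by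
      intro q
      rw [ex1_empty]
      by_cases hq0 : D.dg w q = 0
      · have h1 : ∀ l ∈ U, (LW D w h r cc).g l q =
            h q * (((2 : ℂ) ^ k)⁻¹ * e2 (D.dg (cc 0) q)) := by
          intro l hl
          rw [gW_zero D w h r cc hq0, hW.unl.Q hW.zero hl, mul_zero, zero_add]
          congr 3
          have h2 : cc l = (cc l + cc 0) + cc 0 := by
            funext j
            rw [Pi.add_apply, Pi.add_apply, add_assoc, z2_add_self, add_zero]
          by_cases h3 : cc l + cc 0 = 0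
          · rw [h2, h3, zero_add]
          · rw [h2, hB l hl h3, dg_add, hq0, zero_add]
        rw [sum_congr rfl h1, sum_const, hW.card, nsmul_eq_mul]
        push_cast
        linear_combination (h q * e2 (D.dg (cc 0) q)) * (mul_inv_cancel₀ h2c)
      · rw [sum_eq_single_of_mem 0 hW.zero fun l _ hl => gW_ne D w h r cc hq0 hl,
          gW_one D w h r cc hq0]
    simp only [hg]
    by_cases h0 : tr (cc 0)
    · have hmW : mW w tr cc U = 1 := by
        unfold mW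
        refine if_pos ⟨h0, fun l hl => ?_⟩
        by_cases h3 : cc l + cc 0 = 0
        · exact Or.inl h3
        · exact Or.inr (hB l hl h3)
      refine ⟨0, fun X _ => ?_⟩
      simp only [hw.one _ h0, prod_const_one, sum_const, nsmul_eq_mul, mul_one, hmW,
        one_mul, sub_self, norm_zero]
      positivity
    · have hmW : mW w tr cc U = 0 := by
        unfold mW
        exact if_neg fun h => h0 h.1
      obtain ⟨X₀, hX₀⟩ := hw.mz ∅ (cc 0) (Subset.refl _) (Or.inr h0) ε hε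
      refine ⟨X₀, fun X hX => ?_⟩
      have h1 := hX₀ X hX
      rw [filter_true_of_mem fun S _ => disjoint_empty_right S] at h1
      rw [hmW, zero_mul, sub_zero]
      exact h1

theorem LW_OK (hD : OKw D w) {h : ι → ℂ} {tr : (κ → ZMod 2) → Prop} (hw : D.Wt ∅ h tr)
    (r : ι → ZMod 2) (cc : Lab2 k → κ → ZMod 2) :
    (LW D w h r cc).OK D (4 * 2 ^ k) (Lgs2 k) (mW w tr cc) fun X => ((Sx ι X).card : ℂ) where
  diag := fun l => Phi1_self _ l
  os := fun l m => Phi1_os _ l m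
  nrm := fun l q => norm_gW_le D w h r cc hw.nrm l q
  two := by
    have : 1 ≤ 2 ^ k := Nat.one_le_two_pow
    omega
  unl := fun U hU => (LW_Unl D w h r cc U).2 (mem_Lgs2.1 hU).unl
  er := fun U hU l hl h => by
    have h1 := (mem_Lgs2.1 hU).card
    have h2 := (mem_Lgs2.1 h).card
    have h3 := card_erase_add_one hl
    omega
  small := by
    classical
    obtain ⟨C, hC⟩ := hD.cb
    obtain ⟨Cn, hCn⟩ := hD.cbn
    have hCw := SumB.of (hC ∅ w (Or.inr hD.w0))
    have h1k : (1 : ℝ) ≤ 2 ^ k := one_le_pow₀ (by norm_num)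
    have h2k0 : (0 : ℝ) < 2 ^ k := by linarith
    refine ⟨max (C * (1 + Real.log (nm (∅ : Finset ι)))) Cn, fun Z hZ hZ2 => ?_⟩
    have hZ1 := (LW_Unl D w h r cc Z).1 hZ
    have hcard := K1 hZ1
    have hcardr : (Z.card : ℝ) ≤ 2 ^ k := by exact_mod_cast hcard
    by_cases h0 : (0 : Lab2 k) ∈ Z
    · refine ⟨fun q => -D.ch ∅ w q, hCn.mono (le_max_right _ _), fun q => ?_⟩
      have h2 : Z.card ≠ 2 ^ k := fun h => hZ2 (mem_Lgs2.2 ⟨hZ1, h, h0⟩)
      have h3 : Z.card + 1 ≤ 2 ^ k := by omega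
      have h4 : (Z.card : ℝ) + 1 ≤ 2 ^ k := by exact_mod_cast h3
      beta_reduce
      rw [sum_norm_gW D w h r cc hw.nrm, ch_empty]
      push_cast
      by_cases hq : D.dg w q = 0
      · rw [if_pos hq, hq, sg2_zero, ← div_eq_mul_inv]
        constructor
        · rw [div_le_one h2k0]
          linarith
        · rw [div_le_div_iff₀ h2k0 (by linarith)]
          nlinarith
      · rw [if_neg hq, if_pos h0, z2_one_of hq, Pool.Agent.Lib.MP_1a91b9_ntQ.sg2_one]
        refine ⟨le_refl _, ?_⟩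
        rw [le_div_iff₀ (by linarith)]
        linarith
    · refine ⟨D.ch ∅ w, hCw.mono (le_max_left _ _), fun q => ?_⟩
      rw [sum_norm_gW D w h r cc hw.nrm, ch_empty]
      push_cast
      by_cases hq : D.dg w q = 0
      · rw [if_pos hq, hq, sg2_zero, ← div_eq_mul_inv]
        constructor
        · rw [div_le_one h2k0]
          linarith
        · rw [div_le_div_iff₀ h2k0 (by linarith)]
          nlinarith
      · rw [if_neg hq, if_neg h0, z2_one_of hq, Pool.Agent.Lib.MP_1a91b9_ntQ.sg2_one]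
        refine ⟨zero_le_one, ?_⟩
        exact div_nonneg (by linarith) (by linarith)
  mid := LW_mid hD hw.nrm r cc
  main := LW_main hD hw r cc

end

end Pool.Agent.Lib.MP_1a91b9_ntW
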