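import Pool.Agent.Lib.MP_1a91b9_ntW.D.MomW

/-!
# MP_1a91b9_nt (twists over `Q(√-2)`), part D: the two cases

`densU_lower`, `densU_upper`: the matrix `NX` without border. `densB_lower`, `densB_upper`: the
matrix with the border `l` (a class character different from `0` and `w`) and the corner
`kk + ∑ l q`.
-/

set_option autoImplicit false
set_option linter.unusedSectionVars false

namespace Pool.Agent.Lib.MP_1a91b9_ntW

open Finset Pool.Agent.Lib.MP_1a91b9_ntH Pool.Agent.Lib.MP_1a91b9_ntQ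
open Pool.Agent.Lib.MP_1a91b9_ntQ.Da
open Pool.Agent.Lib.MP_1a91b9_ntV

noncomputable section

variable {ι : Type} [DecidableEq ι] {κ : Type} [Fintype κ] [DecidableEq κ] {k : ℕ}

/-- The matrix without border. -/
def NX (s : ι → ι → ZMod 2) (x : ι → ZMod 2) (S : Finset ι) : Matrix S S (ZMod 2) :=
  fun i j => if i = j then x i + ∑ l ∈ S.erase i, s i l else s i j

theorem det_NXB_empty {E : Type} [Fintype E] [DecidableEq E] [IsEmpty E] (s : ι → ι → ZMod 2)
    (x : ι → ZMod 2) (b : ι → E → ZMod 2) (R : Matrix E E (ZMod 2)) (S : Finset ι) :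
    (NXB s x b R S).det = (NX s x S).det := by
  have h1 : NXB s x b R S = (NX s x S).submatrix (Equiv.sumEmpty S E) (Equiv.sumEmpty S E) := by
    ext i j
    rcases i with i | e
    · rcases j with j | f
      · rfl
      · exact isEmptyElim f
    · exact isEmptyElim e
  rw [h1, Matrix.det_submatrix_equiv_self]

variable [PS ι]

/-- **No border, the lower bound.** -/
theorem densU_lower {G : Type} [AddCommGroup G] [Fintype G] {D : Dat2 ι κ} {w : κ → ZMod 2}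
    (hD : OKw D w) (C : Cl2 D G) (h3 : C.H3) (r : ι → ZMod 2) (g : G)
    {κ₀ : ℝ} (hκ : κ₀ < cinf2) (ε : ℝ) (hε : 0 < ε) :
    ∃ X₀ : ℕ, ∀ X : ℕ, X₀ ≤ X →
      κ₀ * ((SG C g X).card : ℝ) - ε * X ≤
        ((SG C g X).filter fun S => (NX D.s (xD D w r S) (mo D w S)).det ≠ 0).card := by
  obtain ⟨X0, h0⟩ := dens_lower hD C h3 r (P := fun _ (_ : Empty) => 0)
    (R := 0) (fun e => e.elim) (fun x _ => funext fun e => e.elim) g hκ ε hε
  refine ⟨X0, fun X hX => (h0 X hX).trans (le_of_eq ?_)⟩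
  simp only [MW, det_NXB_empty]

/-- **No border, the upper bound.** -/
theorem densU_upper {G : Type} [AddCommGroup G] [Fintype G] {D : Dat2 ι κ} {w : κ → ZMod 2}
    (hD : OKw D w) (C : Cl2 D G) (h3 : C.H3) (r : ι → ZMod 2) (g : G)
    {κ₀ : ℝ} (hκ : cinf2 < κ₀) (ε : ℝ) (hε : 0 < ε) :
    ∃ X₀ : ℕ, ∀ X : ℕ, X₀ ≤ X →
      (((SG C g X).filter fun S => (NX D.s (xD D w r S) (mo D w S)).det ≠ 0).card : ℝ) ≤
        κ₀ * ((SG C g X).card : ℝ) + ε * X := by
  obtain ⟨X0, h0⟩ := dens_upper hD C h3 r (P := fun _ (_ : Empty) => 0)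
    (R := 0) (fun e => e.elim) (fun x _ => funext fun e => e.elim) g hκ ε hε
  refine ⟨X0, fun X hX => (le_of_eq ?_).trans (h0 X hX)⟩
  simp only [MW, det_NXB_empty]

omit [DecidableEq ι] [DecidableEq κ] [PS ι] in
theorem bd_one (D : Dat2 ι κ) (l : κ → ZMod 2) (q : ι) (e : Unit) :
    D.bd (fun j _ => l j) q e = D.dg l q := rfl

theorem hP_one {w l : κ → ZMod 2} (hl0 : l ≠ 0) (hlw : l ≠ w) (x : Unit → ZMod 2)
    (h : (∀ j, ∑ e, l j * x e = 0) ∨ ∀ j, ∑ e, l j * x e = w j) : x = 0 := by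
  funext e
  by_contra hne
  have h1 : ∀ y : ZMod 2, y ≠ 0 → y = 1 := by decide
  have hx : x () = 1 := h1 _ hne
  simp only [univ_unique, PUnit.default_eq_unit, sum_singleton, hx, mul_one] at h
  rcases h with h | h
  · exact hl0 (funext h)
  · exact hlw (funext h)

theorem corner_cls {G : Type} [AddCommGroup G] [Fintype G] {D : Dat2 ι κ} (C : Cl2 D G)
    (l : κ → ZMod 2) {g : G} {X : ℕ} {S : Finset ι} (hS : S ∈ SG C g X) :
    ∑ q ∈ S, D.dg l q = ∑ j, l j * C.A j g := by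
  rw [sum_dg]
  unfold dotProduct clN
  refine sum_congr rfl fun j _ => ?_
  congr 1
  rw [← (mem_SG.1 hS).2, map_sum]
  exact sum_congr rfl fun q _ => C.ha q j

/-- **The border `l`, the lower bound.** -/
theorem densB_lower {G : Type} [AddCommGroup G] [Fintype G] {D : Dat2 ι κ} {w : κ → ZMod 2}
    (hD : OKw D w) (C : Cl2 D G) (h3 : C.H3) (r : ι → ZMod 2) {l : κ → ZMod 2} (hl0 : l ≠ 0)
    (hlw : l ≠ w) (kk : ZMod 2) (g : G) {κ₀ : ℝ} (hκ : κ₀ < cinf2) (ε : ℝ) (hε : 0 < ε) :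
    ∃ X₀ : ℕ, ∀ X : ℕ, X₀ ≤ X →
      κ₀ * ((SG C g X).card : ℝ) - ε * X ≤
        ((SG C g X).filter fun S => (NXB D.s (xD D w r S) (fun q (_ : Unit) => D.dg l q)
          (fun _ _ => kk + ∑ q ∈ S, D.dg l q) (mo D w S)).det ≠ 0).card := by
  obtain ⟨X0, h0⟩ := dens_lower hD C h3 r (P := fun j (_ : Unit) => l j)
    (R := fun _ _ => kk + ∑ j, l j * C.A j g) (fun _ _ => rfl) (hP_one hl0 hlw) g hκ ε hε
  refine ⟨X0, fun X hX => (h0 X hX).trans (le_of_eq ?_)⟩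
  congr 2
  refine filter_congr fun S hS => ?_
  rw [corner_cls C l hS]
  rfl

/-- **The border `l`, the upper bound.** -/
theorem densB_upper {G : Type} [AddCommGroup G] [Fintype G] {D : Dat2 ι κ} {w : κ → ZMod 2}
    (hD : OKw D w) (C : Cl2 D G) (h3 : C.H3) (r : ι → ZMod 2) {l : κ → ZMod 2} (hl0 : l ≠ 0)
    (hlw : l ≠ w) (kk : ZMod 2) (g : G) {κ₀ : ℝ} (hκ : cinf2 < κ₀) (ε : ℝ) (hε : 0 < ε) :
    ∃ X₀ : ℕ, ∀ X : ℕ, X₀ ≤ X →
      (((SG C g X).filter fun S => (NXB D.s (xD D w r S) (fun q (_ : Unit) => D.dg l q)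
          (fun _ _ => kk + ∑ q ∈ S, D.dg l q) (mo D w S)).det ≠ 0).card : ℝ) ≤
        κ₀ * ((SG C g X).card : ℝ) + ε * X := by
  obtain ⟨X0, h0⟩ := dens_upper hD C h3 r (P := fun j (_ : Unit) => l j)
    (R := fun _ _ => kk + ∑ j, l j * C.A j g) (fun _ _ => rfl) (hP_one hl0 hlw) g hκ ε hε
  refine ⟨X0, fun X hX => (le_of_eq ?_).trans (h0 X hX)⟩
  congr 2
  refine filter_congr fun S hS => ?_
  rw [corner_cls C l hS]
  rfl

end

end Pool.Agent.Lib.MP_1a91b9_ntW
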