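import Pool.Agent.Lib.MP_1a91b9_ntW.D.SysW

/-!
# MP_1a91b9_nt (twists over `Q(√-2)`), part D: the matrices

`NXB s x b R S`: the symbols `s i j` off the diagonal, `x i` and the row sums on the diagonal,
bordered by the columns `b`, with the corner `R`. The matrix of the set `S` is taken over the primes
`q` with `dg w q = 0`, with `x q = r q + ∑ s q p`, over the `p ∈ S` with `dg w p ≠ 0`.
`kX_eq` is the expansion of the powers of the size of its kernel.
-/

set_option autoImplicit false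
set_option linter.unusedSectionVars false

namespace Pool.Agent.Lib.MP_1a91b9_ntW

open Finset Pool.Agent.Lib.MP_1a91b9_ntH Pool.Agent.Lib.MP_1a91b9_ntQ
open Pool.Agent.Lib.MP_1a91b9_ntQ.Da
open Pool.Agent.Lib.MP_1a91b9_ntV

noncomputable section

variable {ι : Type} [DecidableEq ι] {κ : Type} [Fintype κ] [DecidableEq κ] {k : ℕ}
  {E : Type} [Fintype E] [DecidableEq E]

/-- The bordered matrix. -/
def NXB (s : ι → ι → ZMod 2) (x : ι → ZMod 2) (b : ι → E → ZMod 2) (R : Matrix E E (ZMod 2))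
    (S : Finset ι) : Matrix (S ⊕ E) (S ⊕ E) (ZMod 2) :=
  Matrix.fromBlocks
    (fun i j => if i = j then x i + ∑ l ∈ S.erase i, s i l else s i j)
    (Matrix.of fun i e => b i e) (Matrix.of fun e i => b i e) R

/-- The size of the kernel. -/
def kX (s : ι → ι → ZMod 2) (x : ι → ZMod 2) (b : ι → E → ZMod 2) (R : Matrix E E (ZMod 2))
    (S : Finset ι) : ℕ :=
  Fintype.card {v : S ⊕ E → ZMod 2 // (NXB s x b R S).mulVec v = 0}

/-- The data with `x` and `b` as class characters. -/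
def DX (s : ι → ι → ZMod 2) (x : ι → ZMod 2) (b : ι → E → ZMod 2) : Dat2 ι (Option E) where
  s := s
  a := fun q o => o.elim (x q) (b q)

def cX (E : Type) : Option E → ZMod 2 := fun o => o.elim 1 fun _ => 0

def PX (E : Type) [DecidableEq E] : Option E → E → ZMod 2 :=
  fun o e => o.elim 0 fun f => if f = e then 1 else 0

theorem dg_DX (s : ι → ι → ZMod 2) (x : ι → ZMod 2) (b : ι → E → ZMod 2) (q : ι) :
    (DX s x b).dg (cX E) q = x q := by
  unfold Dat2.dg DX cX
  rw [Fintype.sum_option]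
  simp

theorem bd_DX (s : ι → ι → ZMod 2) (x : ι → ZMod 2) (b : ι → E → ZMod 2) (q : ι) (e : E) :
    (DX s x b).bd (PX E) q e = b q e := by
  unfold Dat2.bd DX PX
  rw [Fintype.sum_option]
  simp

theorem NXB_eq (s : ι → ι → ZMod 2) (x : ι → ZMod 2) (b : ι → E → ZMod 2)
    (R : Matrix E E (ZMod 2)) (S : Finset ι) :
    NXB s x b R S = (DX s x b).NB (cX E) (PX E) R S := by
  unfold NXB Dat2.NB Dat2.N
  simp only [dg_DX, bd_DX]
  rfl

theorem kX_eq_kB (s : ι → ι → ZMod 2) (x : ι → ZMod 2) (b : ι → E → ZMod 2)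
    (R : Matrix E E (ZMod 2)) (S : Finset ι) :
    kX s x b R S = (DX s x b).kB (cX E) (PX E) R S := by
  unfold kX Dat2.kB
  simp only [NXB_eq]

/-- The expansion of the powers of the size of the kernel. -/
theorem kX_pow_mul (s : ι → ι → ZMod 2) (x : ι → ZMod 2) (b : ι → E → ZMod 2)
    (R : Matrix E E (ZMod 2)) (S : Finset ι) :
    (kX s x b R S : ℂ) ^ k * (2 ^ k) ^ (S.card + Fintype.card E) =
      ∑ m : E → Lab2 k, e2 (RF R m) * ∑ f : S → Lab2 k,
        e2 (∑ j : S, (x j * Q2 (f j) + ∑ e, b j e * B2 (f j) (m e)) +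
          ∑ j : S, ∑ l : S, PhiQ (f j) (f l) * s j l) := by
  rw [kX_eq_kB, kB_pow_mul]
  refine sum_congr rfl fun m _ => ?_
  congr 1
  refine sum_congr rfl fun f _ => ?_
  unfold Dat2.eS
  simp only [lin_LSE, dg_DX, bd_DX]
  rfl

/-! ### The primes with many labels -/

open Classical in
/-- The primes with many labels. -/
def mo (D : Dat2 ι κ) (w : κ → ZMod 2) (S : Finset ι) : Finset ι := S.filter fun q => D.dg w q = 0

open Classical in
/-- The primes with one label. -/
def on (D : Dat2 ι κ) (w : κ → ZMod 2) (S : Finset ι) : Finset ι := S.filter fun q => ¬ D.dg w q = 0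

variable (D : Dat2 ι κ) (w : κ → ZMod 2)

theorem mem_mo {S : Finset ι} {q : ι} : q ∈ mo D w S ↔ q ∈ S ∧ D.dg w q = 0 := by
  classical
  rw [mo, mem_filter]

theorem mem_on {S : Finset ι} {q : ι} : q ∈ on D w S ↔ q ∈ S ∧ ¬ D.dg w q = 0 := by
  classical
  rw [on, mem_filter]

/-- The diagonal of the matrix of `S`. -/
def xD (r : ι → ZMod 2) (S : Finset ι) (q : ι) : ZMod 2 := r q + ∑ p ∈ on D w S, D.s q p

open Classical in
/-- The labelling of all the primes. -/
def e0 (S : Finset ι) (f : mo D w S → Lab2 k) (q : ι) : Lab2 k :=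
  if h : q ∈ mo D w S then f ⟨q, h⟩ else 0

def eS0 (S : Finset ι) (f : mo D w S → Lab2 k) (q : S) : Lab2 k := e0 D w S f q

variable {D w}

theorem e0_mo {S : Finset ι} (f : mo D w S → Lab2 k) (q : mo D w S) : e0 D w S f q = f q := by
  unfold e0
  rw [dif_pos q.2]

theorem e0_on {S : Finset ι} (f : mo D w S → Lab2 k) {q : ι} (hq : ¬ D.dg w q = 0) :
    e0 D w S f q = 0 := by
  unfold e0
  rw [dif_neg fun h => hq ((mem_mo D w).1 h).2]

theorem eS0_inj (S : Finset ι) : Function.Injective (eS0 (k := k) D w S) := by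
  intro f g h
  funext q
  have hq := (mem_mo D w).1 q.2
  have h1 : e0 D w S f q = e0 D w S g q := congrFun h ⟨q, hq.1⟩
  rwa [e0_mo, e0_mo] at h1

theorem sum_splitW {M : Type} [AddCommMonoid M] (S : Finset ι) (f : mo D w S → Lab2 k)
    (G : Lab2 k → ι → M) : ∑ j : S, G (eS0 D w S f j) j =
      ∑ j : mo D w S, G (f j) j + ∑ j ∈ on D w S, G 0 j := by
  classical
  have h1 : ∑ j : S, G (eS0 D w S f j) j = ∑ j ∈ S, G (e0 D w S f j) j :=
    sum_coe_sort S fun j => G (e0 D w S f j) j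
  rw [h1, ← sum_filter_add_sum_filter_not S fun q => D.dg w q = 0]
  congr 1
  · have h2 : ∑ j ∈ mo D w S, G (e0 D w S f j) j = ∑ j : mo D w S, G (e0 D w S f j) j :=
      (sum_coe_sort (mo D w S) fun j => G (e0 D w S f j) j).symm
    refine Eq.trans ?_ (h2.trans (sum_congr rfl fun j _ => by rw [e0_mo]))
    rw [mo]
  · have h2 : ∑ j ∈ on D w S, G (e0 D w S f j) j = ∑ j ∈ on D w S, G 0 j :=
      sum_congr rfl fun j hj => by rw [e0_on f ((mem_on D w).1 hj).2]
    rw [← h2, on]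

theorem prod_split (S : Finset ι) (f : mo D w S → Lab2 k)
    (G : Lab2 k → ι → ℂ) : ∏ j : S, G (eS0 D w S f j) j =
      (∏ j : mo D w S, G (f j) j) * ∏ j ∈ on D w S, G 0 j := by
  classical
  have h1 : ∏ j : S, G (eS0 D w S f j) j = ∏ j ∈ S, G (e0 D w S f j) j :=
    prod_coe_sort S fun j => G (e0 D w S f j) j
  rw [h1, ← prod_filter_mul_prod_filter_not S fun q => D.dg w q = 0]
  congr 1
  · have h2 : ∏ j ∈ mo D w S, G (e0 D w S f j) j = ∏ j : mo D w S, G (e0 D w S f j) j :=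
      (prod_coe_sort (mo D w S) fun j => G (e0 D w S f j) j).symm
    refine Eq.trans ?_ (h2.trans (prod_congr rfl fun j _ => by rw [e0_mo]))
    rw [mo]
  · have h2 : ∏ j ∈ on D w S, G (e0 D w S f j) j = ∏ j ∈ on D w S, G 0 j :=
      prod_congr rfl fun j hj => by rw [e0_on f ((mem_on D w).1 hj).2]
    rw [← h2, on]

theorem PhiQ_zero_left (m : Lab2 k) : PhiQ (0 : Lab2 k) m = 0 := by
  unfold PhiQ
  rw [Prod.snd_zero, zero_dotProduct]

theorem PhiQ_zero_right (l : Lab2 k) : PhiQ l 0 = Q2 l := by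
  unfold PhiQ Q2
  rw [Prod.fst_zero, add_zero, dotProduct_comm]

/-- The exponent of a labelling. -/
theorem phi_split (tw : ∀ p q, p ≠ q → D.s p q + D.s q p = D.dg w p * D.dg w q) (S : Finset ι)
    (f : mo D w S → Lab2 k) :
    ∑ j : S, ∑ l : S, Phi1 PhiQ (eS0 D w S f j) (eS0 D w S f l) * D.s j l =
      ∑ j : mo D w S, (∑ p ∈ on D w S, D.s j p) * Q2 (f j) +
        ∑ j : mo D w S, ∑ l : mo D w S, PhiQ (f j) (f l) * D.s j l := by
  have h1 := exp_one D tw PhiQ PhiQ_self S (eS0 (k := k) D w S f)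
  have h2 : FRc PhiQ (nl (D.dg w) S (eS0 (k := k) D w S f)) = 0 := by
    have h3 : ∀ a : Lab2 k, a ≠ 0 → nl (D.dg w) S (eS0 (k := k) D w S f) a = 0 := by
      intro a ha
      unfold nl
      refine sum_eq_zero fun j _ => ?_
      by_cases hj : D.dg w j = 0
      · rw [hj, ite_self]
      · have h4 : eS0 (k := k) D w S f j = 0 := e0_on f hj
        rw [h4, if_neg ha.symm]
    unfold FRc
    refine sum_eq_zero fun a _ => sum_eq_zero fun b _ => ?_
    by_cases ha : a = 0
    · by_cases hb : b = 0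
      · rw [ha, hb, if_neg (lt_irrefl _)]
      · rw [h3 b hb, mul_zero, mul_zero, ite_self]
    · rw [h3 a ha, zero_mul, mul_zero, ite_self]
  rw [h2, add_zero] at h1
  rw [← h1]
  have h5 := sum_splitW S f fun l (q : ι) => ∑ j : S, PhiQ l (eS0 D w S f j) * D.s q j
  beta_reduce at h5
  rw [h5]
  simp only [PhiQ_zero_left, zero_mul, sum_const_zero, add_zero]
  rw [← sum_add_distrib]
  refine sum_congr rfl fun j _ => ?_
  have h6 := sum_splitW S f fun l (q : ι) => PhiQ (f j) l * D.s j q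
  beta_reduce at h6
  rw [h6, add_comm]
  congr 1
  rw [sum_mul]
  refine sum_congr rfl fun p _ => ?_
  rw [PhiQ_zero_right]
  ring

/-- The sum over the labellings of the engine. -/
theorem lab_eq (tw : ∀ p q, p ≠ q → D.s p q + D.s q p = D.dg w p * D.dg w q) (h : ι → ℂ)
    (r : ι → ZMod 2) (P : κ → E → ZMod 2) (m : E → Lab2 k) (S : Finset ι) :
    ∑ F : S → Lab2 k, (∏ j : S, (LW D w h r (cE 0 P m)).g (F j) j) *
      e2 (∑ j : S, ∑ l : S, (LW D w h r (cE 0 P m)).Phi (F j) (F l) * D.s j l) =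
    (∏ q ∈ S, h q) * (((2 : ℂ) ^ k)⁻¹) ^ (mo D w S).card * ∑ f : mo D w S → Lab2 k,
      e2 (∑ j : mo D w S, (xD D w r S j * Q2 (f j) + ∑ e, D.bd P j e * B2 (f j) (m e)) +
        ∑ j : mo D w S, ∑ l : mo D w S, PhiQ (f j) (f l) * D.s j l) := by
  classical
  have h0 : cE (k := k) (0 : κ → ZMod 2) P m 0 = 0 := by
    funext j
    unfold cE
    rw [Q2_zero, mul_zero, zero_add, Pi.zero_apply]
    refine sum_eq_zero fun e _ => ?_
    have h1 : B2 (0 : Lab2 k) (m e) = 0 := by
      unfold B2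
      simp
    rw [h1, mul_zero]
  have hdg : ∀ (l : Lab2 k) (q : ι), D.dg (cE 0 P m l) q = ∑ e, D.bd P q e * B2 l (m e) := by
    intro l q
    unfold Dat2.dg Dat2.bd cE
    simp only [Pi.zero_apply, zero_mul, zero_add, sum_mul]
    rw [sum_comm]
    exact sum_congr rfl fun e _ => sum_congr rfl fun j _ => by ring
  rw [mul_sum]
  symm
  refine Fintype.sum_of_injective (eS0 (k := k) D w S) (eS0_inj S) _ _ ?_ ?_
  · intro F hF
    have h2 : ∃ j : S, ¬ D.dg w j = 0 ∧ F j ≠ 0 := by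
      by_contra hcon
      push Not at hcon
      apply hF
      refine ⟨fun q => F ⟨q, ((mem_mo D w).1 q.2).1⟩, ?_⟩
      funext j
      by_cases hj : D.dg w j = 0
      · exact e0_mo (D := D) (w := w) _ ⟨j, (mem_mo D w).2 ⟨j.2, hj⟩⟩
      · rw [hcon j hj]
        exact e0_on _ hj
    obtain ⟨j, hj, hFj⟩ := h2
    have h3 : ∏ j : S, (LW D w h r (cE 0 P m)).g (F j) j = 0 :=
      prod_eq_zero (mem_univ j) (gW_ne D w h r _ hj hFj)
    rw [h3, zero_mul]
  · intro f
    have h4 := phi_split tw S f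
    have h5 : ∑ j : S, ∑ l : S, (LW D w h r (cE 0 P m)).Phi (eS0 D w S f j) (eS0 D w S f l) *
        D.s j l = ∑ j : mo D w S, (∑ p ∈ on D w S, D.s j p) * Q2 (f j) +
        ∑ j : mo D w S, ∑ l : mo D w S, PhiQ (f j) (f l) * D.s j l := h4
    have h6 := prod_split S f fun l q => (LW D w h r (cE 0 P m)).g l q
    beta_reduce at h6
    have h7 : ∏ j ∈ on D w S, (LW D w h r (cE 0 P m)).g 0 j = ∏ j ∈ on D w S, h j := by
      refine prod_congr rfl fun j hj => ?_
      rw [gW_one D w h r _ ((mem_on D w).1 hj).2, h0, dg_zero, e2_zero, mul_one]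
    have h8 : ∏ j : mo D w S, (LW D w h r (cE 0 P m)).g (f j) j =
        (∏ j ∈ mo D w S, h j) * ((((2 : ℂ) ^ k)⁻¹) ^ (mo D w S).card *
          e2 (∑ j : mo D w S, (r j * Q2 (f j) + ∑ e, D.bd P j e * B2 (f j) (m e)))) := by
      have h9 : ∀ j : mo D w S, (LW D w h r (cE 0 P m)).g (f j) j = h j *
          (((2 : ℂ) ^ k)⁻¹ * e2 (r j * Q2 (f j) + ∑ e, D.bd P j e * B2 (f j) (m e))) := by
        intro j
        rw [gW_zero D w h r _ ((mem_mo D w).1 j.2).2, hdg]
      rw [prod_congr rfl fun j _ => h9 j, prod_mul_distrib, prod_mul_distrib, prod_const,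
        card_univ, Fintype.card_coe, ← e2_sum, prod_coe_sort (mo D w S) h]
    have h10 : ∏ q ∈ S, h q = (∏ j ∈ mo D w S, h j) * ∏ j ∈ on D w S, h j := by
      rw [← prod_filter_mul_prod_filter_not S fun q => D.dg w q = 0]
      rw [mo, on]
    rw [h5, h6, h7, h8, h10]
    have h11 : ∑ j : mo D w S, (xD D w r S j * Q2 (f j) + ∑ e, D.bd P j e * B2 (f j) (m e)) +
        ∑ j : mo D w S, ∑ l : mo D w S, PhiQ (f j) (f l) * D.s j l =
        ∑ j : mo D w S, (r j * Q2 (f j) + ∑ e, D.bd P j e * B2 (f j) (m e)) +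
        (∑ j : mo D w S, (∑ p ∈ on D w S, D.s j p) * Q2 (f j) +
        ∑ j : mo D w S, ∑ l : mo D w S, PhiQ (f j) (f l) * D.s j l) := by
      unfold xD
      simp only [add_mul, sum_add_distrib]
      ring
    rw [h11, e2_add]
    ring

end

end Pool.Agent.Lib.MP_1a91b9_ntW
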