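import Pool.Agent.Lib.MP_1a91b9_ntQ.D.Lim2
import Pool.Agent.Lib.MP_1a91b9_ntQ.D.DAlgQ
import Pool.Agent.Lib.MP_1a91b9_ntV.D.ClsN
import Pool.Agent.Lib.MP_1a91b9_ntW.D.MatW

/-!
# MP_1a91b9_nt (twists over `Q(√-2)`), part D: the moments and the densities

`dens_lower`, `dens_upper`: in every class the matrix of the set `S` is nonsingular with density
`∏_{i ≥ 0} (1 - 2^{-(2i+1)}) = 0.4194...`.
-/

set_option autoImplicit false
set_option linter.unusedSectionVars false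

namespace Pool.Agent.Lib.MP_1a91b9_ntW

open Finset Pool.Agent.Lib.MP_1a91b9_ntH Pool.Agent.Lib.MP_1a91b9_ntQ
open Pool.Agent.Lib.MP_1a91b9_ntQ.Da
open Pool.Agent.Lib.MP_1a91b9_ntV

noncomputable section

variable {ι : Type} [DecidableEq ι] {κ : Type} [Fintype κ] [DecidableEq κ] {k : ℕ}
  {E : Type} [Fintype E] [DecidableEq E]

/-- The matrix of the set `S`. -/
def MW (D : Dat2 ι κ) (w : κ → ZMod 2) (r : ι → ZMod 2) (P : κ → E → ZMod 2)
    (R : Matrix E E (ZMod 2)) (S : Finset ι) :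
    Matrix (mo D w S ⊕ E) (mo D w S ⊕ E) (ZMod 2) :=
  NXB D.s (xD D w r S) (D.bd P) R (mo D w S)

/-- The size of the kernel of the matrix of the set `S`. -/
def kW (D : Dat2 ι κ) (w : κ → ZMod 2) (r : ι → ZMod 2) (P : κ → E → ZMod 2)
    (R : Matrix E E (ZMod 2)) (S : Finset ι) : ℕ :=
  kX D.s (xD D w r S) (D.bd P) R (mo D w S)

open Classical in
/-- The main coefficient. -/
def TW (k : ℕ) (w : κ → ZMod 2) (P : κ → E → ZMod 2) (R : Matrix E E (ZMod 2))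
    (c0 : κ → ZMod 2) : ℂ :=
  ∑ m : E → Lab2 k, e2 (RF R m) * ∑ U ∈ Lgs2 k,
    if c0 = 0 ∧ ∀ l ∈ U, cE 0 P m l = 0 ∨ cE 0 P m l = w then 1 else 0

theorem cE_zero (P : κ → E → ZMod 2) (m : E → Lab2 k) : cE (0 : κ → ZMod 2) P m 0 = 0 := by
  funext j
  unfold cE
  rw [Q2_zero, mul_zero, zero_add, Pi.zero_apply]
  refine sum_eq_zero fun e _ => ?_
  have h1 : B2 (0 : Lab2 k) (m e) = 0 := by
    unfold B2
    simp
  rw [h1, mul_zero]

theorem TW_zero {w : κ → ZMod 2} {P : κ → E → ZMod 2} {R : Matrix E E (ZMod 2)}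
    (hR : ∀ e f, R e f = R f e)
    (hP : ∀ x : E → ZMod 2, ((∀ j, ∑ e, P j e * x e = 0) ∨ ∀ j, ∑ e, P j e * x e = w j) →
      x = 0) :
    TW k w P R 0 = (2 ^ k) ^ Fintype.card E * (Nk2 k : ℂ) := by
  classical
  have h1 : ∀ (m : E → Lab2 k), ∀ U ∈ Lgs2 k,
      ((0 : κ → ZMod 2) = 0 ∧ ∀ l ∈ U, cE 0 P m l = 0 ∨ cE 0 P m l = w) ↔ ∀ e, m e ∈ U := by
    intro m U hU
    have hW := mem_Lgs2.1 hU
    have h2 : ∀ l ∈ U, ∀ j, cE 0 P m l j = ∑ e, P j e * B2 l (m e) := by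
      intro l _ j
      unfold cE
      rw [Pi.zero_apply, zero_mul, zero_add]
    constructor
    · rintro ⟨_, h3⟩ e
      rw [hW.mem_iff]
      intro l hl
      rw [B2_comm]
      refine congrFun (hP (fun e => B2 l (m e)) ?_) e
      rcases h3 l hl with h4 | h4
      · left
        intro j
        rw [← h2 l hl, h4, Pi.zero_apply]
      · right
        intro j
        rw [← h2 l hl, h4]
    · intro h3
      refine ⟨rfl, fun l hl => Or.inl ?_⟩
      funext j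
      rw [h2 l hl, Pi.zero_apply]
      refine sum_eq_zero fun e _ => ?_
      rw [hW.unl.B hW.zero hl (h3 e), mul_zero]
  have h5 : TW k w P R 0 = ∑ U ∈ Lgs2 k, ∑ m : E → Lab2 k, if ∀ e, m e ∈ U then 1 else 0 := by
    unfold TW
    rw [sum_congr rfl fun m _ => Finset.mul_sum _ _ _, sum_comm]
    refine sum_congr rfl fun U hU => ?_
    refine sum_congr rfl fun m _ => ?_
    by_cases h : ∀ e, m e ∈ U
    · rw [if_pos ((h1 m U hU).2 h), if_pos h, RF_mem hR (mem_Lgs2.1 hU) h, e2_zero, mul_one]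
    · rw [if_neg fun h' => h ((h1 m U hU).1 h'), if_neg h, mul_zero]
  have h6 : ∀ U ∈ Lgs2 k, ∑ m : E → Lab2 k, (if ∀ e, m e ∈ U then (1 : ℂ) else 0) =
      (2 ^ k) ^ Fintype.card E := by
    intro U hU
    have h7 : (univ.filter fun m : E → Lab2 k => ∀ e, m e ∈ U) = Fintype.piFinset fun _ => U := by
      ext m
      rw [mem_filter, Fintype.mem_piFinset]
      exact ⟨fun h => h.2, fun h => ⟨mem_univ _, h⟩⟩
    rw [← sum_filter, sum_const, nsmul_eq_mul, mul_one, h7, Fintype.card_piFinset, prod_const,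
      card_univ, (mem_Lgs2.1 hU).card]
    push_cast
    rfl
  rw [h5, sum_congr rfl h6, sum_const, card_Lgs2, nsmul_eq_mul, mul_comm]

theorem kW_pow_mul (D : Dat2 ι κ) {w : κ → ZMod 2}
    (tw : ∀ p q, p ≠ q → D.s p q + D.s q p = D.dg w p * D.dg w q) (r : ι → ZMod 2)
    (P : κ → E → ZMod 2) (R : Matrix E E (ZMod 2)) (h : ι → ℂ) (S : Finset ι) :
    (∏ q ∈ S, h q) * (kW D w r P R S : ℂ) ^ k * (2 ^ k) ^ Fintype.card E =
      ∑ m : E → Lab2 k, e2 (RF R m) * ∑ F : S → Lab2 k,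
        (∏ j : S, (LW D w h r (cE 0 P m)).g (F j) j) *
          e2 (∑ j : S, ∑ l : S, (LW D w h r (cE 0 P m)).Phi (F j) (F l) * D.s j l) := by
  have hk : ((2 : ℂ) ^ k) ≠ 0 := pow_ne_zero _ (by norm_num)
  simp only [lab_eq tw h r P]
  have h1 := kX_pow_mul (k := k) D.s (xD D w r S) (D.bd P) R (mo D w S)
  have h5 : ((2 ^ k : ℂ)⁻¹) ^ (mo D w S).card * (2 ^ k) ^ (mo D w S).card = 1 := by
    rw [← mul_pow, inv_mul_cancel₀ hk, one_pow]
  have h4 : (∏ q ∈ S, h q) * (kW D w r P R S : ℂ) ^ k * (2 ^ k) ^ Fintype.card E =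
      ((∏ q ∈ S, h q) * (((2 : ℂ) ^ k)⁻¹) ^ (mo D w S).card) *
        ((kX D.s (xD D w r S) (D.bd P) R (mo D w S) : ℂ) ^ k *
          (2 ^ k) ^ ((mo D w S).card + Fintype.card E)) := by
    rw [pow_add, kW]
    linear_combination (-((∏ q ∈ S, h q)) * (kX D.s (xD D w r S) (D.bd P) R (mo D w S) : ℂ) ^ k *
      (2 ^ k) ^ Fintype.card E) * h5
  rw [h4, h1, mul_sum]
  refine sum_congr rfl fun m _ => ?_
  ring

variable [PS ι]

/-- The weighted moment. -/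
def MoW (D : Dat2 ι κ) (w : κ → ZMod 2) (r : ι → ZMod 2) (P : κ → E → ZMod 2)
    (R : Matrix E E (ZMod 2)) (k : ℕ) (h : ι → ℂ) (X : ℕ) : ℂ :=
  ∑ S ∈ Sx ι X, (∏ q ∈ S, h q) * (kW D w r P R S : ℂ) ^ k

open Classical in
/-- The weighted moments. -/
theorem MoW_lim {D : Dat2 ι κ} {w : κ → ZMod 2} (hD : OKw D w) {h : ι → ℂ}
    {tr : (κ → ZMod 2) → Prop} (hw : D.Wt ∅ h tr) (r : ι → ZMod 2) (P : κ → E → ZMod 2)
    (R : Matrix E E (ZMod 2)) (k : ℕ) (ε : ℝ) (hε : 0 < ε) : ∃ X₀ : ℕ, ∀ X : ℕ, X₀ ≤ X →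
    ‖MoW D w r P R k h X * (2 ^ k) ^ Fintype.card E -
      (∑ c0 ∈ univ.filter tr, TW k w P R c0) * ((Sx ι X).card : ℂ)‖ ≤ ε * X := by
  have hN : (0 : ℝ) < Fintype.card (E → Lab2 k) := by
    exact_mod_cast Fintype.card_pos
  set ε' : ℝ := ε / Fintype.card (E → Lab2 k) with hε'
  have hε0 : 0 < ε' := by positivity
  choose X0 h0 using fun m : E → Lab2 k =>
    engineG D hD.an (LW D w h r (cE 0 P m)) (LW_OK hD hw r (cE 0 P m)) ε' hε0
  refine ⟨∑ p, X0 p, fun X hX => ?_⟩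
  have hXt : ∀ p, X0 p ≤ X := fun p =>
    (single_le_sum (fun _ _ => Nat.zero_le _) (mem_univ p)).trans hX
  have hT : ∑ c0 ∈ univ.filter tr, TW k w P R c0 =
      ∑ m : E → Lab2 k, e2 (RF R m) * ∑ U ∈ Lgs2 k, mW w tr (cE 0 P m) U := by
    unfold TW
    rw [sum_comm]
    refine sum_congr rfl fun m _ => ?_
    rw [← mul_sum, sum_comm]
    congr 1
    refine sum_congr rfl fun U _ => ?_
    unfold mW
    rw [cE_zero]
    simp only [add_zero]
    by_cases h1 : tr 0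
    · rw [sum_eq_single_of_mem 0 (mem_filter.2 ⟨mem_univ _, h1⟩)]
      · by_cases h2 : ∀ l ∈ U, cE 0 P m l = 0 ∨ cE 0 P m l = w
        · rw [if_pos ⟨rfl, h2⟩, if_pos ⟨h1, h2⟩]
        · rw [if_neg fun h => h2 h.2, if_neg fun h => h2 h.2]
      · intro c _ hc
        exact if_neg fun h => hc h.1
    · rw [if_neg fun h => h1 h.1]
      refine sum_eq_zero fun c hc => if_neg fun h => h1 ?_
      rw [← h.1]
      exact (mem_filter.1 hc).2
  have hM : MoW D w r P R k h X * (2 ^ k) ^ Fintype.card E =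
      ∑ m : E → Lab2 k, e2 (RF R m) * ∑ S ∈ Sx ι X, ∑ F : S → Lab2 k,
        (∏ j : S, (LW D w h r (cE 0 P m)).g (F j) j) *
          e2 (∑ j : S, ∑ l : S, (LW D w h r (cE 0 P m)).Phi (F j) (F l) * D.s j l) := by
    rw [MoW, sum_mul, sum_congr rfl fun S _ => kW_pow_mul (k := k) D hD.tw r P R h S, sum_comm]
    exact sum_congr rfl fun m _ => (mul_sum _ _ _).symm
  rw [hM, hT, sum_mul, ← sum_sub_distrib]
  calc _ ≤ ∑ m : E → Lab2 k, ε' * X := by
        refine (norm_sum_le _ _).trans (sum_le_sum fun m _ => ?_)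
        have h2 := h0 m X (hXt m)
        rw [mul_assoc (e2 (RF R m)), ← mul_sub, norm_mul, norm_e2, one_mul]
        exact h2
    _ = ε * X := by
        rw [sum_const, card_univ, nsmul_eq_mul, hε']
        field_simp

/-- **The moments in the classes.** -/
theorem momW {G : Type} [AddCommGroup G] [Fintype G] {D : Dat2 ι κ} {w : κ → ZMod 2}
    (hD : OKw D w) (C : Cl2 D G) (h3 : C.H3) (r : ι → ZMod 2) {P : κ → E → ZMod 2}
    {R : Matrix E E (ZMod 2)} (hR : ∀ e f, R e f = R f e)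
    (hP : ∀ x : E → ZMod 2, ((∀ j, ∑ e, P j e * x e = 0) ∨ ∀ j, ∑ e, P j e * x e = w j) →
      x = 0) (g : G) (k : ℕ) :
    MF2 (SG C g) (kW D w r P R) (fun x => x ^ k) (Nk2 k) := by
  classical
  intro ε hε
  refine cls_moment C h3 (fun S => (kW D w r P R S : ℝ) ^ k) (TW k w P R)
    ((2 ^ k) ^ Fintype.card E) (one_le_pow₀ (one_le_pow₀ (by norm_num)))
    (fun h tr hw ε hε => ?_) g (Nk2 k) (Nat.cast_nonneg _) ?_ ε hε
  · obtain ⟨X0, h0⟩ := MoW_lim hD hw r P R k ε hε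
    refine ⟨X0, fun X hX => ?_⟩
    have h1 := h0 X hX
    rw [MoW] at h1
    push_cast
    exact h1
  · rw [sum_eq_single (0 : κ → ZMod 2)]
    · simp only [Pi.zero_apply, zero_mul, sum_const_zero, e2_zero, one_mul]
      rw [TW_zero hR hP]
      push_cast
      ring
    · intro c _ hc
      have h1 : TW k w P R c = 0 := by
        unfold TW
        refine sum_eq_zero fun m _ => ?_
        rw [sum_eq_zero fun U _ => if_neg fun h => hc h.1, mul_zero]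
      rw [h1, mul_zero]
    · intro h
      exact absurd (mem_univ _) h

omit [PS ι] in
theorem kW_pow (D : Dat2 ι κ) (w : κ → ZMod 2) (r : ι → ZMod 2) (P : κ → E → ZMod 2)
    (R : Matrix E E (ZMod 2)) (S : Finset ι) : ∃ n : ℕ, kW D w r P R S = 2 ^ n := by
  rw [kW, kX_eq_kB]
  exact kB_pow _ _ _ _ _

omit [PS ι] in
theorem kW_eq_one (D : Dat2 ι κ) (w : κ → ZMod 2) (r : ι → ZMod 2) (P : κ → E → ZMod 2)
    (R : Matrix E E (ZMod 2)) (S : Finset ι) :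
    kW D w r P R S = 1 ↔ (MW D w r P R S).det ≠ 0 := by
  rw [kW, MW, kX_eq_kB, NXB_eq]
  exact kB_eq_one _ _ _ _ _

/-- **The lower bound.** -/
theorem dens_lower {G : Type} [AddCommGroup G] [Fintype G] {D : Dat2 ι κ} {w : κ → ZMod 2}
    (hD : OKw D w) (C : Cl2 D G) (h3 : C.H3) (r : ι → ZMod 2) {P : κ → E → ZMod 2}
    {R : Matrix E E (ZMod 2)} (hR : ∀ e f, R e f = R f e)
    (hP : ∀ x : E → ZMod 2, ((∀ j, ∑ e, P j e * x e = 0) ∨ ∀ j, ∑ e, P j e * x e = w j) →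
      x = 0) (g : G) {κ₀ : ℝ} (hκ : κ₀ < cinf2) (ε : ℝ) (hε : 0 < ε) :
    ∃ X₀ : ℕ, ∀ X : ℕ, X₀ ≤ X →
      κ₀ * ((SG C g X).card : ℝ) - ε * X ≤
        ((SG C g X).filter fun S => (MW D w r P R S).det ≠ 0).card := by
  obtain ⟨X0, h0⟩ := dens2_lower (A := SG C g) (kc := kW D w r P R) (kW_pow D w r P R)
    (momW hD C h3 r hR hP g) hκ ε hε
  refine ⟨X0, fun X hX => (h0 X hX).trans (le_of_eq ?_)⟩
  congr 2
  exact filter_congr fun S _ => kW_eq_one D w r P R S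

/-- **The upper bound.** -/
theorem dens_upper {G : Type} [AddCommGroup G] [Fintype G] {D : Dat2 ι κ} {w : κ → ZMod 2}
    (hD : OKw D w) (C : Cl2 D G) (h3 : C.H3) (r : ι → ZMod 2) {P : κ → E → ZMod 2}
    {R : Matrix E E (ZMod 2)} (hR : ∀ e f, R e f = R f e)
    (hP : ∀ x : E → ZMod 2, ((∀ j, ∑ e, P j e * x e = 0) ∨ ∀ j, ∑ e, P j e * x e = w j) →
      x = 0) (g : G) {κ₀ : ℝ} (hκ : cinf2 < κ₀) (ε : ℝ) (hε : 0 < ε) :
    ∃ X₀ : ℕ, ∀ X : ℕ, X₀ ≤ X →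
      (((SG C g X).filter fun S => (MW D w r P R S).det ≠ 0).card : ℝ) ≤
        κ₀ * ((SG C g X).card : ℝ) + ε * X := by
  obtain ⟨X0, h0⟩ := dens2_upper (A := SG C g) (kc := kW D w r P R) (kW_pow D w r P R)
    (momW hD C h3 r hR hP g) hκ ε hε
  refine ⟨X0, fun X hX => (le_of_eq ?_).trans (h0 X hX)⟩
  congr 2
  exact filter_congr fun S _ => (kW_eq_one D w r P R S).symm

end

end Pool.Agent.Lib.MP_1a91b9_ntW
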